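import Pool.Agent.Helper57.ZF.Goals

/-!
# Project ZF, packet OVL
-/

set_option autoImplicit false

namespace Pool.Agent.Helper65.ZF

open Pool.Agent.Helper57.ZF

theorem OVL : G_OVL := by
  classical
  intro α Q f t k B δ J hB hD hJ
  by_cases hc : J.card ≤ 2
  · have := Nat.mul_le_mul_right t hc
    omega
  have hne : J.Nonempty := by
    rw [← Finset.card_pos]
    omega
  set a := J.min' hne with ha
  set b := J.max' hne with hb
  have haJ : a ∈ J := J.min'_mem hne
  have hbJ : b ∈ J := J.max'_mem hne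
  set J' := (J.erase a).erase b with hJ'
  have hcard : J.card ≤ J'.card + 2 := by
    have h1 := Finset.pred_card_le_card_erase (s := J) (a := a)
    have h2 : (J.erase a).card - 1 ≤ J'.card := Finset.pred_card_le_card_erase
    omega
  obtain ⟨hak, -, ya, hya, hya2⟩ := hJ a haJ
  obtain ⟨hbk, ⟨xb, hxb, hxb2⟩, -⟩ := hJ b hbJ
  have hmem : ∀ i ∈ J', i ∈ J ∧ a < i ∧ i < b := by
    intro i hi
    simp only [hJ', Finset.mem_erase, ne_eq] at hi
    obtain ⟨h1, h2, h3⟩ := hi
    have h4 := J.min'_le i h3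
    have h5 := J.le_max' i h3
    exact ⟨h3, lt_of_le_of_ne h4 (Ne.symm h2), lt_of_le_of_ne h5 h1⟩
  have hsub : J'.biUnion B ⊆ Q.filter (fun x => δ ≤ 2 * f x ∧ f x ≤ 2 * δ) := by
    intro x hx
    rw [Finset.mem_biUnion] at hx
    obtain ⟨i, hi, hxi⟩ := hx
    obtain ⟨hiJ, hai, hib⟩ := hmem i hi
    have hik := (hJ i hiJ).1
    have h1 := (hD a hak i hik hai).2 ya hya x hxi
    have h2 := (hD i hik b hbk hib).2 x hxi xb hxb
    rw [Finset.mem_filter]
    exact ⟨(hB i hik).1 hxi, by linarith, by linarith⟩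
  have hcu : (J'.biUnion B).card = J'.card * t := by
    rw [Finset.card_biUnion]
    · rw [Finset.sum_congr rfl (fun i hi => (hB i (hJ i (hmem i hi).1).1).2)]
      simp
    · intro i hi j hj hij
      have hik := (hJ i (hmem i hi).1).1
      have hjk := (hJ j (hmem j hj).1).1
      rcases lt_or_gt_of_ne hij with h | h
      · exact (hD i hik j hjk h).1
      · exact ((hD j hjk i hik h).1).symm
  have h3 := Finset.card_le_card hsub
  rw [hcu, ← cnt_eq] at h3
  have h4 := Nat.mul_le_mul_right t hcard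
  rw [add_mul] at h4
  omega

end Pool.Agent.Helper65.ZF
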